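import Pool.Agent.Lib.MP_2f925d_al.HomC

set_option autoImplicit false

namespace Pool.Agent.Results.MP_2f925d_al.LargeDegree

open Pool.Agent.Lib.MP_2f925d_al

/-- Let `t = s + r` with `s ≤ (r + 1) (r + 2) / 2`. For all large `n` a permutation group of degree
`n` with the weak `(n - t)`-ut property is `s`-homogeneous, or fixes a point and is
`t`-homogeneous on the other points; and `t`-homogeneous groups, and groups which fix a point and
are `t`-homogeneous on the other points, have the weak `(n - t)`-ut property. -/
theorem result (r s : ℕ) (hr : 2 * s ≤ (r + 1) * (r + 2)) : ∃ N : ℕ,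
    ∀ (Ω : Type*) [Fintype Ω] [DecidableEq Ω], N ≤ Fintype.card Ω →
    ∀ G : Subgroup (Equiv.Perm Ω),
      (WeakUT G (Fintype.card Ω - (s + r)) →
        IsHomogeneous G s ∨ FixesPointHomogeneous G (s + r)) ∧
      (IsHomogeneous G (s + r) ∨ FixesPointHomogeneous G (s + r) →
        WeakUT G (Fintype.card Ω - (s + r))) :=
  hom_result r s hr

end Pool.Agent.Results.MP_2f925d_al.LargeDegree
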