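import Pool.Agent.Lib.MP_2f925d_al.Main

set_option autoImplicit false

namespace Pool.Agent.Results.MP_2f925d_al.NMinusTwo

open Pool.Agent.Lib.MP_2f925d_al

/-- Let `G` be a permutation group of degree `n ≥ 4`. It has the weak `(n - 2)`-ut property if and
only if it preserves a special graph (no edge, perfect matching, star, Moore graph with `5`, `10`
or `50` vertices) and is transitive on the pairs of different non-adjacent vertices; and `S` is
`G`-universal for `k = n - 2` if and only if for some special graph the images of the complement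
of `S` are exactly the pairs of different non-adjacent vertices. -/
theorem result {Ω : Type*} [Fintype Ω] [DecidableEq Ω] (hn : 4 ≤ Fintype.card Ω)
    (G : Subgroup (Equiv.Perm Ω)) :
    (WeakUT G (Fintype.card Ω - 2) ↔ ∃ Δ : SimpleGraph Ω, IsSpecial Δ ∧
      (∀ g ∈ G, ∀ x y, Δ.Adj (g x) (g y) ↔ Δ.Adj x y) ∧
      ∀ x y z w, x ≠ y → ¬ Δ.Adj x y → z ≠ w → ¬ Δ.Adj z w →
        ∃ g ∈ G, ({g x, g y} : Finset Ω) = {z, w}) ∧
    ∀ S : Finset Ω, (IsUniversal G (Fintype.card Ω - 2) S ↔
      ∃ Δ : SimpleGraph Ω, IsSpecial Δ ∧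
        ∀ x y, x ≠ y → (¬ Δ.Adj x y ↔ ∃ g ∈ G, Sᶜ.image g = {x, y})) :=
  ⟨main_groups hn G, main_sets hn G⟩

end Pool.Agent.Results.MP_2f925d_al.NMinusTwo
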