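import Pool.Agent.Lib.MP_2f925d_al.Prim

set_option autoImplicit false

namespace Pool.Agent.Results.MP_2f925d_al.NonPrimitive

open Pool.Agent.Lib.MP_2f925d_al

/-- Let `n / 2 < k = n - t ≤ n - 3` and let `G` be a permutation group of degree `n` which is not
primitive. A set `S` is `G`-universal for `k` if and only if it has `k` elements and contains a
point `c` such that `G` fixes `c` and is `t`-homogeneous on the set of the other points. -/
theorem result {Ω : Type*} [Fintype Ω] [DecidableEq Ω] (t : ℕ) (ht : 3 ≤ t)
    (hn : 2 * t < Fintype.card Ω) (G : Subgroup (Equiv.Perm Ω)) (hG : ¬ IsPrimitiveGroup G)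
    (S : Finset Ω) :
    IsUniversal G (Fintype.card Ω - t) S ↔
      S.card = Fintype.card Ω - t ∧ ∃ c ∈ S, FixesAt G t c :=
  nonprimitive t ht hn G hG S

end Pool.Agent.Results.MP_2f925d_al.NonPrimitive
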