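import Pool.Agent.Lib.MP_2f925d_al.HomD

set_option autoImplicit false

namespace Pool.Agent.Results.MP_2f925d_al.UniversalSets

open Pool.Agent.Lib.MP_2f925d_al

/-- Let `t` be fixed and `n` large. If `S` is a `G`-universal set with `n - t` elements, then the
`G`-universal sets with at least `n - t` elements are exactly the sets which contain an image of
`S`. In particular the `G`-universal sets with `n - t` elements form one orbit. -/
theorem result (t : ℕ) : ∃ N : ℕ,
    ∀ (Ω : Type*) [Fintype Ω] [DecidableEq Ω], N ≤ Fintype.card Ω →
    ∀ (G : Subgroup (Equiv.Perm Ω)) (S : Finset Ω), IsUniversal G (Fintype.card Ω - t) S →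
      ∀ S' : Finset Ω, Fintype.card Ω - t ≤ S'.card →
        (IsUniversal G S'.card S' ↔ ∃ g ∈ G, S.image g ⊆ S') :=
  universal_sets t

end Pool.Agent.Results.MP_2f925d_al.UniversalSets
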